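import Mathlib

/-!
Piecewise syndetic subsets of the natural numbers: the elementary facts needed for a
Moreira type argument.
-/

namespace Pool.Agent.Helper86.MS

open Finset

/-- piecewise syndetic: for some bound `t`, there are arbitrarily long intervals each of whose
points has an element of `A` at distance at most `t` to its right. -/
def PS (A : Set ℕ) : Prop :=
  ∃ t : ℕ, ∀ L : ℕ, ∃ n : ℕ, ∀ m, n ≤ m → m < n + L → ∃ s ≤ t, m + s ∈ A

theorem PS.mono {A B : Set ℕ} (h : PS A) (hAB : A ⊆ B) : PS B := by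
  obtain ⟨t, ht⟩ := h
  refine ⟨t, fun L => ?_⟩
  obtain ⟨n, hn⟩ := ht L
  refine ⟨n, fun m h1 h2 => ?_⟩
  obtain ⟨s, hs, h3⟩ := hn m h1 h2
  exact ⟨s, hs, hAB h3⟩

theorem PS.univ : PS Set.univ := ⟨0, fun _ => ⟨0, fun _ _ _ => ⟨0, le_rfl, Set.mem_univ _⟩⟩⟩

theorem not_PS_empty : ¬ PS ∅ := by
  rintro ⟨t, ht⟩
  obtain ⟨n, hn⟩ := ht 1
  obtain ⟨s, _, h⟩ := hn n le_rfl (by omega)
  exact h

theorem PS.unbounded {A : Set ℕ} (h : PS A) (N : ℕ) : ∃ a ∈ A, N ≤ a := by
  obtain ⟨t, ht⟩ := h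
  obtain ⟨n, hn⟩ := ht (N + 1)
  obtain ⟨s, _, h⟩ := hn (n + N) (by omega) (by omega)
  exact ⟨_, h, by omega⟩

theorem PS.union {A B : Set ℕ} (h : PS (A ∪ B)) : PS A ∨ PS B := by
  by_cases hB : PS B
  · exact Or.inr hB
  · left
    obtain ⟨t, ht⟩ := h
    refine ⟨t, fun L => ?_⟩
    have hB' : ∃ L' : ℕ, ∀ n : ℕ, ∃ m, n ≤ m ∧ m < n + L' ∧ ∀ s ≤ L + t, m + s ∉ B := by
      by_contra hcon
      apply hB
      refine ⟨L + t, fun L' => ?_⟩
      by_contra h2
      apply hcon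
      refine ⟨L', fun n => ?_⟩
      by_contra h3
      apply h2
      refine ⟨n, fun m h4 h5 => ?_⟩
      by_contra h6
      apply h3
      refine ⟨m, h4, h5, fun s hs hmem => h6 ⟨s, hs, hmem⟩⟩
    obtain ⟨L', hL'⟩ := hB'
    obtain ⟨n, hn⟩ := ht (L' + L)
    obtain ⟨m, hm1, hm2, hm3⟩ := hL' n
    refine ⟨m, fun m' h1 h2 => ?_⟩
    obtain ⟨s, hs, hmem⟩ := hn m' (by omega) (by omega)
    refine ⟨s, hs, ?_⟩
    rcases hmem with h | h
    · exact h
    · exfalso
      have h7 := hm3 (m' - m + s) (by omega)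
      have h8 : m + (m' - m + s) = m' + s := by omega
      rw [h8] at h7
      exact h7 h

theorem PS.biUnion {ι : Type*} (S : Finset ι) (A : ι → Set ℕ)
    (h : PS (⋃ i ∈ S, A i)) : ∃ i ∈ S, PS (A i) := by
  classical
  induction S using Finset.induction_on with
  | empty =>
    exfalso
    apply not_PS_empty
    simpa using h
  | insert a S ha ih =>
    rw [Finset.set_biUnion_insert] at h
    rcases h.union with h | h
    · exact ⟨a, Finset.mem_insert_self _ _, h⟩
    · obtain ⟨i, hi, h'⟩ := ih h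
      exact ⟨i, Finset.mem_insert_of_mem hi, h'⟩

theorem PS.dilate {A : Set ℕ} (h : PS A) (w : ℕ) (hw : 0 < w) :
    PS {z | ∃ a ∈ A, z = w * a} := by
  obtain ⟨t, ht⟩ := h
  refine ⟨w + w * t, fun L => ?_⟩
  obtain ⟨n, hn⟩ := ht (L + 2)
  refine ⟨w * n, fun m h1 h2 => ?_⟩
  have h3 : n ≤ m / w := by
    rw [Nat.le_div_iff_mul_le hw]
    linarith [mul_comm n w]
  have h4 : m / w ≤ n + L := by
    have h5 : m / w ≤ (w * n + w * L) / w := by
      apply Nat.div_le_div_right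
      nlinarith
    rw [← mul_add, Nat.mul_div_cancel_left _ hw] at h5
    exact h5
  obtain ⟨s, hs, hmem⟩ := hn (m / w + 1) (by omega) (by omega)
  have h6 : w * (m / w) + m % w = m := Nat.div_add_mod m w
  have h7 : m % w < w := Nat.mod_lt _ hw
  have h8 : w * s ≤ w * t := Nat.mul_le_mul_left _ hs
  refine ⟨w - m % w + w * s, by omega, _, hmem, ?_⟩
  rw [mul_add, mul_add, mul_one]
  omega

/-- Sum of the entries of a combinatorial line. -/
theorem line_sum {F : Finset ℕ} {ι : Type} [Fintype ι] (l : Combinatorics.Line F ι) :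
    ∃ d e : ℕ, 0 < d ∧ d ≤ Fintype.card ι ∧ ∀ x : F, ∑ i, ((l x i : F) : ℕ) = e + x * d := by
  classical
  refine ⟨(Finset.univ.filter (fun i => l.idxFun i = none)).card,
    ∑ i ∈ Finset.univ.filter (fun i => ¬ l.idxFun i = none), ((l.idxFun i).elim 0 (fun b => (b : ℕ))),
    ?_, ?_, ?_⟩
  · rw [Finset.card_pos]
    obtain ⟨i, hi⟩ := l.proper
    exact ⟨i, by simp [hi]⟩
  · exact Finset.card_le_univ _
  · intro x
    rw [← Finset.sum_filter_add_sum_filter_not Finset.univ (fun i => l.idxFun i = none)]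
    rw [add_comm]
    congr 1
    · apply Finset.sum_congr rfl
      intro i hi
      rw [Finset.mem_filter] at hi
      obtain ⟨b, hb⟩ := Option.ne_none_iff_exists'.mp hi.2
      rw [Combinatorics.Line.apply_some hb, hb]
      rfl
    · rw [Finset.sum_congr rfl (g := fun _ => (x : ℕ))]
      · simp [mul_comm]
      · intro i hi
        rw [Finset.mem_filter] at hi
        rw [Combinatorics.Line.apply_none l _ _ hi.2]

theorem PS.vdW {B : Set ℕ} (h : PS B) (F : Finset ℕ) :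
    ∃ d : ℕ, 0 < d ∧ PS {z | z ∈ B ∧ ∀ a ∈ F, z + a * d ∈ B} := by
  classical
  obtain ⟨t, ht⟩ := h
  set F' := insert 0 F with hF'
  obtain ⟨ι, hι, hHJ⟩ := Combinatorics.Line.exists_mono_in_high_dimension F' (Fin (t + 1))
  set R := Fintype.card ι with hR
  set M := R * (F'.sup id) with hM
  have hsum : ∀ v : ι → F', ∑ i, ((v i : F') : ℕ) ≤ M := by
    intro v
    have : ∑ i, ((v i : F') : ℕ) ≤ ∑ _i : ι, F'.sup id := by
      apply Finset.sum_le_sum
      intro i _
      exact Finset.le_sup (f := id) (v i).2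
    simpa [hM, hR] using this
  have key : PS (⋃ d ∈ Finset.Icc 1 R, {z | z ∈ B ∧ ∀ a ∈ F, z + a * d ∈ B}) := by
    refine ⟨M + t, fun L => ?_⟩
    obtain ⟨n, hn⟩ := ht (L + M)
    refine ⟨n, fun m h1 h2 => ?_⟩
    have hcol : ∀ v : ι → F', ∃ s : Fin (t + 1), m + (∑ i, ((v i : F') : ℕ)) + s ∈ B := by
      intro v
      have h3 := hsum v
      obtain ⟨s, hs, hmem⟩ := hn (m + (∑ i, ((v i : F') : ℕ))) (by omega) (by omega)
      exact ⟨⟨s, by omega⟩, hmem⟩
    choose C hC using hcol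
    obtain ⟨l, s, hl⟩ := hHJ C
    obtain ⟨d, e, hd0, hdR, hde⟩ := line_sum l
    have hmem : ∀ x : F', m + (e + x * d) + s ∈ B := by
      intro x
      have := hC (l x)
      rw [hl x, hde x] at this
      exact this
    have h0 := hmem ⟨0, Finset.mem_insert_self _ _⟩
    have h0' := hsum (fun i => l ⟨0, Finset.mem_insert_self _ _⟩ i)
    rw [hde] at h0'
    simp only [zero_mul, add_zero] at h0 h0'
    refine ⟨e + s, by have := s.2; omega, ?_⟩
    simp only [Set.mem_iUnion, Finset.mem_Icc, Set.mem_ofPred_eq]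
    refine ⟨d, ⟨hd0, hdR⟩, by rw [← add_assoc]; exact h0, fun a ha => ?_⟩
    have h4 := hmem ⟨a, Finset.mem_insert_of_mem ha⟩
    simp only at h4
    have h5 : m + (e + (s : ℕ)) + a * d = m + (e + a * d) + s := by ring
    rw [h5]
    exact h4
  obtain ⟨d, hd, hps⟩ := PS.biUnion _ _ key
  exact ⟨d, (Finset.mem_Icc.mp hd).1, hps⟩

end Pool.Agent.Helper86.MS
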