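import Mathlib

/-! The walk-cycle lemma (helper61's WC): in a finite multigraph with heights at the
edge-ends such that every cycle through different vertices has total height variation at
most `m * K`, some vertex has at least a quarter of its edge-ends within `4 K` of one of them. -/

namespace Pool.Helper86.MS

set_option linter.unusedSectionVars false
set_option linter.unusedVariables false
set_option linter.style.header false

open Finset

section

variable {I D : Type*} [Fintype I] [DecidableEq I] [DecidableEq D]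

/-- sum of the height differences of the interior passages of a list of darts (last first) -/
def isum (rev : D → D) (v : D → ℝ) : List D → ℝ
  | [] => 0
  | [_] => 0
  | d :: e :: l => |v d - v (rev e)| + isum rev v (e :: l)

open Classical in
/-- number of interior passages with difference at most `C` -/
noncomputable def cnt (rev : D → D) (v : D → ℝ) (C : ℝ) : List D → ℕ
  | [] => 0
  | [_] => 0
  | d :: e :: l => (if |v d - v (rev e)| ≤ C then 1 else 0) + cnt rev v C (e :: l)

/-- self avoiding path, last dart first -/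
inductive Pth (p : D → I) (rev : D → D) (S : Finset D) (u : I) : List D → I → Prop
  | nil : Pth p rev S u [] u
  | cons {l : List D} {x : I} {d : D} : Pth p rev S u l x → d ∈ S → p d = x →
      (∀ e ∈ l, p (rev d) ≠ p (rev e)) → p (rev d) ≠ u → Pth p rev S u (d :: l) (p (rev d))

/-- cyclic list of darts (last first) through different vertices -/
structure Cyc (p : D → I) (rev : D → D) (S : Finset D) (L : List D) : Prop where
  mem : ∀ d ∈ L, d ∈ S
  len : 2 ≤ L.length
  chain : L.IsChain (fun d e => p d = p (rev e))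
  nodup : (L.map p).Nodup
  closed : ∀ d e, L.head? = some d → L.getLast? = some e → p (rev d) = p e

theorem cnt_bound (rev : D → D) (v : D → ℝ) {C : ℝ} (hC : 0 ≤ C) (L : List D) (hL : L ≠ []) :
    isum rev v L ≥ C * (L.length - 1 - cnt rev v C L : ℝ) ∧
      ((cnt rev v C L : ℝ) < L.length - 1 → isum rev v L > C * (L.length - 1 - cnt rev v C L : ℝ)) ∧
      cnt rev v C L ≤ L.length - 1 := by
  induction L with
  | nil => exact absurd rfl hL
  | cons d L ih =>
    cases L with
    | nil => simp [isum, cnt]
    | cons e l =>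
      obtain ⟨h1, h2, h3⟩ := ih (by simp)
      have h3' : (cnt rev v C (e :: l) : ℝ) ≤ (e :: l).length - 1 := by
        have : cnt rev v C (e :: l) + 1 ≤ (e :: l).length := by
          simp only [List.length_cons] at h3 ⊢
          omega
        have h4 : ((cnt rev v C (e :: l) : ℝ) + 1) ≤ (((e :: l).length : ℕ) : ℝ) := by exact_mod_cast this
        linarith
      have habs := abs_nonneg (v d - v (rev e))
      simp only [isum, cnt]
      by_cases hc : |v d - v (rev e)| ≤ C
      · simp only [hc, if_true]
        refine ⟨?_, ?_, ?_⟩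
        · push_cast
          simp only [List.length_cons] at h1 ⊢
          push_cast at h1 ⊢
          linarith
        · intro h
          simp only [List.length_cons] at h h2 ⊢
          push_cast at h h2 ⊢
          have := h2 (by linarith)
          linarith
        · simp only [List.length_cons] at h3 ⊢
          omega
      · simp only [hc, if_false]
        push Not at hc
        refine ⟨?_, ?_, ?_⟩
        · simp only [List.length_cons] at h1 ⊢
          push_cast at h1 ⊢
          nlinarith
        · intro h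
          simp only [List.length_cons] at h1 ⊢
          push_cast at h1 ⊢
          nlinarith
        · simp only [List.length_cons] at h3 ⊢
          omega

theorem cyc_cnt {p : D → I} {rev : D → D} {v : D → ℝ} {K : ℝ} {S : Finset D} (hK : 0 ≤ K)
    (hinv : ∀ d, rev (rev d) = d)
    (hcyc : ∀ L, Cyc p rev S L → (∀ e, L ≠ [rev e, e]) → isum rev v L ≤ L.length * K)
    {L : List D} (hL : Cyc p rev S L) : L.length ≤ 2 * cnt rev v (4 * K) L := by
  classical
  by_cases hb : ∃ e, L = [rev e, e]
  · obtain ⟨e, rfl⟩ := hb
    have : |v (rev e) - v (rev e)| ≤ 4 * K := by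
      simp only [sub_self, abs_zero]; positivity
    simp only [cnt, this, if_true]
    simp
  · push Not at hb
    have h1 := hcyc L hL hb
    have hne : L ≠ [] := by
      intro h; have := hL.len; rw [h] at this; simp at this
    obtain ⟨h2, h3, h4⟩ := cnt_bound rev v (C := 4 * K) (by positivity) L hne
    have hlen := hL.len
    by_cases hf : cnt rev v (4 * K) L = L.length - 1
    · omega
    · have h5 : cnt rev v (4 * K) L + 2 ≤ L.length := by omega
      have h5' : (cnt rev v (4 * K) L : ℝ) + 2 ≤ L.length := by exact_mod_cast h5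
      have h6 := h3 (by linarith)
      by_contra hcon
      push Not at hcon
      have h7 : (2 * cnt rev v (4 * K) L + 1 : ℝ) ≤ L.length := by
        have : 2 * cnt rev v (4 * K) L + 1 ≤ L.length := by omega
        exact_mod_cast this
      -- 4K (m-1-c) < m K and m >= 2c+1, m >= c+2
      have h8 : 4 * K * (L.length - 1 - cnt rev v (4 * K) L : ℝ) < L.length * K := lt_of_lt_of_le h6 h1
      have h9 : K * (4 * (L.length - 1 - cnt rev v (4 * K) L : ℝ) - L.length) < 0 := by nlinarith
      have h10 : 0 ≤ (4 * (L.length - 1 - cnt rev v (4 * K) L : ℝ) - L.length) := by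
        nlinarith
      nlinarith

theorem Pth.mem {p : D → I} {rev : D → D} {S : Finset D} {u x : I} {l : List D}
    (h : Pth p rev S u l x) : ∀ d ∈ l, d ∈ S := by
  induction h with
  | nil => simp
  | cons h1 h2 h3 h4 h5 ih =>
    intro d hd
    rcases List.mem_cons.1 hd with rfl | hd
    · exact h2
    · exact ih d hd

theorem Pth.starts {p : D → I} {rev : D → D} {S : Finset D} {u x : I} {l : List D}
    (h : Pth p rev S u l x) : (∀ e ∈ l, p e = u ∨ ∃ e' ∈ l, p e = p (rev e')) ∧
      (x = u ∧ l = [] ∨ ∃ e ∈ l, x = p (rev e)) := by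
  induction h with
  | nil => simp
  | @cons l x d h1 h2 h3 h4 h5 ih =>
    obtain ⟨i1, i2⟩ := ih
    refine ⟨?_, Or.inr ⟨d, by simp, rfl⟩⟩
    intro e he
    rcases List.mem_cons.1 he with rfl | he
    · rw [h3]
      rcases i2 with ⟨h, _⟩ | ⟨e', he', hx⟩
      · exact Or.inl h
      · exact Or.inr ⟨e', by simp [he'], hx⟩
    · rcases i1 e he with h | ⟨e', he', hx⟩
      · exact Or.inl h
      · exact Or.inr ⟨e', by simp [he'], hx⟩

theorem Pth.nodup {p : D → I} {rev : D → D} {S : Finset D} {u x : I} {l : List D}
    (h : Pth p rev S u l x) : (l.map p).Nodup ∧ x ∉ l.map p := by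
  induction h with
  | nil => simp
  | @cons l x d h1 h2 h3 h4 h5 ih =>
    obtain ⟨i1, i2⟩ := ih
    have hst := h1.starts.1
    constructor
    · rw [List.map_cons, List.nodup_cons]
      exact ⟨by rw [h3]; exact i2, i1⟩
    · intro hmem
      rw [List.map_cons, List.mem_cons] at hmem
      rcases hmem with hm | hm
      · -- p (rev d) = p d = x
        rcases h1.starts.2 with ⟨hx, _⟩ | ⟨e, he, hx⟩
        · exact h5 (by rw [hm, h3, hx])
        · exact h4 e he (by rw [hm, h3, hx])
      · rw [List.mem_map] at hm
        obtain ⟨e, he, hpe⟩ := hm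
        rcases hst e he with hu | ⟨e', he', hx⟩
        · exact h5 (by rw [← hpe, hu])
        · exact h4 e' he' (by rw [← hpe, hx])

theorem Pth.chain {p : D → I} {rev : D → D} {S : Finset D} {u x : I} {l : List D}
    (h : Pth p rev S u l x) : l.IsChain (fun d e => p d = p (rev e)) ∧
      (∀ e, l.head? = some e → x = p (rev e)) ∧ (∀ e, l.getLast? = some e → p e = u) := by
  induction h with
  | nil => simp
  | @cons l x d h1 h2 h3 h4 h5 ih =>
    obtain ⟨i1, i2, i3⟩ := ih
    refine ⟨?_, ?_, ?_⟩
    · cases l with
      | nil => simp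
      | cons e l =>
        rw [List.isChain_cons_cons]
        exact ⟨by rw [h3]; exact i2 e rfl, i1⟩
    · intro e he
      simp only [List.head?_cons, Option.some.injEq] at he
      rw [he]
    · intro e he
      cases l with
      | nil =>
        simp only [List.getLast?_singleton, Option.some.injEq] at he
        subst he
        cases h1
        exact h3
      | cons e' l =>
        rw [List.getLast?_cons_cons] at he
        exact i3 e he

theorem Pth.suffix {p : D → I} {rev : D → D} {S : Finset D} {u : I} (l1 : List D) :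
    ∀ {x : I} {l2 : List D}, Pth p rev S u (l1 ++ l2) x → ∃ y, Pth p rev S u l2 y := by
  induction l1 with
  | nil => intro x l2 h; exact ⟨x, h⟩
  | cons d l1 ih =>
    intro x l2 h
    rw [List.cons_append] at h
    cases h with
    | cons h1 h2 h3 h4 h5 => exact ih h1

theorem step {p : D → I} {rev : D → D} {S : Finset D} {u x : I} {l : List D}
    (h : Pth p rev S u l x) {d : D} (hd : d ∈ S) (hpd : p d = x) (hnl : p (rev d) ≠ p d) :
    Pth p rev S u (d :: l) (p (rev d)) ∨
      ∃ l1 l2, l = l1 ++ l2 ∧ Pth p rev S u l2 (p (rev d)) ∧ Cyc p rev S (d :: l1) := by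
  classical
  obtain ⟨c1, c2, c3⟩ := h.chain
  obtain ⟨n1, n2⟩ := h.nodup
  have hmem := h.mem
  have key : ∀ l1 l2, l = l1 ++ l2 → l1 ≠ [] → (∀ e, l1.getLast? = some e → p (rev d) = p e) →
      Cyc p rev S (d :: l1) := by
    intro l1 l2 hl hne hlast
    refine ⟨?_, ?_, ?_, ?_, ?_⟩
    · intro e he
      rcases List.mem_cons.1 he with rfl | he
      · exact hd
      · exact hmem e (by rw [hl]; simp [he])
    · rcases List.exists_cons_of_ne_nil hne with ⟨e, l', rfl⟩
      simp
    · rcases List.exists_cons_of_ne_nil hne with ⟨e, l', rfl⟩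
      rw [List.isChain_cons_cons]
      rw [hl] at c1 c2
      refine ⟨by rw [hpd]; exact c2 e rfl, ?_⟩
      exact (List.isChain_append.1 c1).1
    · rw [List.map_cons, List.nodup_cons]
      rw [hl, List.map_append] at n1 n2
      refine ⟨?_, (List.nodup_append.1 n1).1⟩
      rw [hpd]
      intro hx
      exact n2 (List.mem_append_left _ hx)
    · intro a b ha hb
      simp only [List.head?_cons, Option.some.injEq] at ha
      subst ha
      rcases List.exists_cons_of_ne_nil hne with ⟨e, l', rfl⟩
      rw [List.getLast?_cons_cons] at hb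
      exact hlast b hb
  by_cases hu : p (rev d) = u
  · right
    refine ⟨l, [], by simp, by rw [hu]; exact Pth.nil, key l [] (by simp) ?_ ?_⟩
    · rintro rfl
      cases h
      exact hnl (by rw [hu, hpd])
    · intro e he
      rw [hu, c3 e he]
  · by_cases he : ∃ e ∈ l, p (rev d) = p (rev e)
    · obtain ⟨e, hel, hpe⟩ := he
      obtain ⟨l1, l2, rfl⟩ := List.append_of_mem hel
      right
      refine ⟨l1, e :: l2, rfl, ?_, key l1 (e :: l2) rfl ?_ ?_⟩
      · obtain ⟨y, hy⟩ := h.suffix
        have := (hy.chain).2.1 e rfl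
        rw [hpe, ← this]
        exact hy
      · rintro rfl
        have := c2 e rfl
        exact hnl (by rw [hpe, hpd, this])
      · intro b hb
        rw [hpe]
        have h3 := (List.isChain_append.1 c1).2.2
        exact (h3 b hb e rfl).symm
    · left
      push Not at he
      exact Pth.cons h hd hpd he hu

theorem cnt_append (rev : D → D) (v : D → ℝ) (C : ℝ) (l1 l2 : List D) :
    cnt rev v C l1 + cnt rev v C l2 ≤ cnt rev v C (l1 ++ l2) := by
  induction l1 with
  | nil => simp [cnt]
  | cons d l1 ih =>
    cases l1 with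
    | nil =>
      cases l2 with
      | nil => simp [cnt]
      | cons e l => simp [cnt]
    | cons e l =>
      simp only [List.cons_append, cnt] at ih ⊢
      omega

/-- degree -/
noncomputable def dg (p : D → I) (S : Finset D) (i : I) : ℝ := ((S.filter (fun d => p d = i)).card : ℝ)

/-- transition matrix of the walk -/
noncomputable def PM (p : D → I) (rev : D → D) (S : Finset D) : Matrix I I ℝ :=
  fun i j => ((S.filter (fun d => p d = i ∧ p (rev d) = j)).card : ℝ) / dg p S i

theorem PM_nonneg (p : D → I) (rev : D → D) (S : Finset D) (i j : I) : 0 ≤ PM p rev S i j := by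
  unfold PM dg; positivity

theorem PMn_nonneg (p : D → I) (rev : D → D) (S : Finset D) (n : ℕ) :
    ∀ i j, 0 ≤ (PM p rev S ^ n) i j := by
  induction n with
  | zero =>
    intro i j
    rw [pow_zero, Matrix.one_apply]
    split_ifs <;> norm_num
  | succ n ih =>
    intro i j
    rw [pow_succ, Matrix.mul_apply]
    exact Finset.sum_nonneg (fun k _ => mul_nonneg (ih i k) (PM_nonneg p rev S k j))

theorem dg_mul_PM (p : D → I) (rev : D → D) (S : Finset D) (i j : I) :
    dg p S i * PM p rev S i j = ((S.filter (fun d => p d = i ∧ p (rev d) = j)).card : ℝ) := by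
  unfold PM
  by_cases h : dg p S i = 0
  · rw [h, zero_mul]
    symm
    unfold dg at h
    rw [Nat.cast_eq_zero, Finset.card_eq_zero] at h ⊢
    rw [Finset.filter_eq_empty_iff] at h ⊢
    intro d hd hh
    exact h hd hh.1
  · field_simp

theorem M_symm (p : D → I) (rev : D → D) (S : Finset D) (hrev : ∀ d ∈ S, rev d ∈ S)
    (hinv : ∀ d, rev (rev d) = d) (i j : I) :
    (S.filter (fun d => p d = i ∧ p (rev d) = j)).card = (S.filter (fun d => p d = j ∧ p (rev d) = i)).card := by
  refine Finset.card_bij' (fun d _ => rev d) (fun d _ => rev d) ?_ ?_ ?_ ?_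
  · intro d hd
    simp only [Finset.mem_filter] at hd ⊢
    exact ⟨hrev d hd.1, hd.2.2, by rw [hinv]; exact hd.2.1⟩
  · intro d hd
    simp only [Finset.mem_filter] at hd ⊢
    exact ⟨hrev d hd.1, hd.2.2, by rw [hinv]; exact hd.2.1⟩
  · intro d _; exact hinv d
  · intro d _; exact hinv d

theorem rev_pow (p : D → I) (rev : D → D) (S : Finset D) (hrev : ∀ d ∈ S, rev d ∈ S)
    (hinv : ∀ d, rev (rev d) = d) (n : ℕ) : ∀ i j,
    dg p S i * (PM p rev S ^ n) i j = dg p S j * (PM p rev S ^ n) j i := by
  induction n with
  | zero =>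
    intro i j
    simp only [pow_zero, Matrix.one_apply]
    by_cases h : i = j
    · subst h; rfl
    · rw [if_neg h, if_neg (fun h' => h h'.symm)]; ring
  | succ n ih =>
    intro i j
    have hM : ∀ a b, dg p S a * PM p rev S a b = dg p S b * PM p rev S b a := by
      intro a b
      rw [dg_mul_PM, dg_mul_PM, M_symm p rev S hrev hinv a b]
    conv_lhs => rw [pow_succ', Matrix.mul_apply, Finset.mul_sum]
    conv_rhs => rw [pow_succ, Matrix.mul_apply, Finset.mul_sum]
    refine Finset.sum_congr rfl (fun k _ => ?_)
    rw [← mul_assoc, hM i k, mul_right_comm, ih k j]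
    ring

theorem rows (p : D → I) (rev : D → D) (S : Finset D) (hrev : ∀ d ∈ S, rev d ∈ S) (n : ℕ) :
    ∀ i, dg p S i ≠ 0 → ∑ j, (PM p rev S ^ n) i j = 1 := by
  have h1 : ∀ i, dg p S i ≠ 0 → ∑ j, PM p rev S i j = 1 := by
    intro i hi
    unfold PM
    rw [← Finset.sum_div, div_eq_one_iff_eq hi]
    unfold dg
    rw [← Nat.cast_sum]
    congr 1
    rw [Finset.card_eq_sum_card_fiberwise (f := fun d => p (rev d)) (t := Finset.univ) (by simp)]
    refine Finset.sum_congr rfl (fun j _ => ?_)
    rw [Finset.filter_filter]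
  have h2 : ∀ i j, PM p rev S i j ≠ 0 → dg p S j ≠ 0 := by
    intro i j hij hj
    apply hij
    unfold PM
    have : (S.filter (fun d => p d = i ∧ p (rev d) = j)).card = 0 := by
      unfold dg at hj
      rw [Nat.cast_eq_zero, Finset.card_eq_zero, Finset.filter_eq_empty_iff] at hj
      rw [Finset.card_eq_zero, Finset.filter_eq_empty_iff]
      intro d hd hh
      exact hj (hrev d hd) hh.2
    rw [this]; simp
  induction n with
  | zero =>
    intro i _
    simp [Matrix.one_apply]
  | succ n ih =>
    intro i hi
    rw [pow_succ']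
    simp only [Matrix.mul_apply]
    rw [Finset.sum_comm]
    simp only [← Finset.mul_sum]
    rw [← h1 i hi]
    refine Finset.sum_congr rfl (fun j _ => ?_)
    by_cases hij : PM p rev S i j = 0
    · rw [hij]; ring
    · rw [ih j (h2 i j hij)]; ring

theorem trace_ge (p : D → I) (rev : D → D) (S : Finset D) (hrev : ∀ d ∈ S, rev d ∈ S)
    (hinv : ∀ d, rev (rev d) = d) (hS : S.Nonempty) (n : ℕ) :
    1 ≤ ∑ i, (PM p rev S ^ (n + n)) i i := by
  have htot : ∑ j, dg p S j = (S.card : ℝ) := by
    unfold dg
    rw [← Nat.cast_sum]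
    congr 1
    exact (Finset.card_eq_sum_card_fiberwise (f := p) (t := Finset.univ) (by simp)).symm
  have hpos : (0 : ℝ) < S.card := by exact_mod_cast hS.card_pos
  have h1 : ∀ i, dg p S i / S.card ≤ (PM p rev S ^ (n + n)) i i := by
    intro i
    by_cases hi : dg p S i = 0
    · rw [hi, zero_div]; exact PMn_nonneg p rev S _ i i
    · have hi' : 0 < dg p S i := lt_of_le_of_ne (by unfold dg; positivity) (Ne.symm hi)
      have hcs := Finset.sum_sq_le_sum_mul_sum_of_sq_eq_mul Finset.univ
        (r := fun j => (PM p rev S ^ n) i j)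
        (f := fun j => (PM p rev S ^ n) i j * (PM p rev S ^ n) j i)
        (g := fun j => dg p S j / dg p S i)
        (fun j _ => mul_nonneg (PMn_nonneg p rev S n i j) (PMn_nonneg p rev S n j i))
        (fun j _ => div_nonneg (by unfold dg; positivity) hi'.le)
        (fun j _ => by
          have := rev_pow p rev S hrev hinv n i j
          field_simp
          rw [mul_comm ((PM p rev S ^ n) i j)]
          linear_combination ((PM p rev S ^ n) i j) * this)
      rw [rows p rev S hrev n i hi, ← Finset.sum_div, htot] at hcs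
      rw [pow_add, Matrix.mul_apply]
      rw [div_le_iff₀ hpos]
      rw [one_pow, mul_div_assoc', le_div_iff₀ hi'] at hcs
      linarith
  calc (1 : ℝ) = ∑ i, dg p S i / S.card := by
        rw [← Finset.sum_div, htot, div_self hpos.ne']
    _ ≤ _ := Finset.sum_le_sum (fun i _ => h1 i)

theorem expand (p : D → I) (rev : D → D) (S : Finset D) (n : ℕ) (x u : I) :
    dg p S x * (PM p rev S ^ (n + 1)) x u =
      ∑ d ∈ S.filter (fun d => p d = x), (PM p rev S ^ n) (p (rev d)) u := by
  rw [pow_succ', Matrix.mul_apply, Finset.mul_sum]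
  rw [← Finset.sum_fiberwise_of_maps_to (g := fun d => p (rev d)) (t := Finset.univ) (by simp)]
  refine Finset.sum_congr rfl (fun y _ => ?_)
  rw [← mul_assoc, dg_mul_PM, Finset.filter_filter]
  rw [Finset.sum_congr rfl (g := fun _ => (PM p rev S ^ n) y u)]
  · rw [Finset.sum_const, nsmul_eq_mul]
  · intro d hd
    rw [(Finset.mem_filter.1 hd).2.2]

theorem ret_bound {p : D → I} {rev : D → D} {v : D → ℝ} {K : ℝ} {S : Finset D} (hK : 0 ≤ K)
    (hinv : ∀ d, rev (rev d) = d) (hrev : ∀ d ∈ S, rev d ∈ S) (hnl : ∀ d ∈ S, p (rev d) ≠ p d)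
    (hcyc : ∀ L, Cyc p rev S L → (∀ e, L ≠ [rev e, e]) → isum rev v L ≤ L.length * K)
    (hclose : ∀ a ∈ S, 4 * (S.filter (fun b => p b = p a ∧ |v b - v a| ≤ 4 * K)).card ≤
      (S.filter (fun b => p b = p a)).card) (u : I) (n : ℕ) :
    ∀ l x, Pth p rev S u l x →
      (PM p rev S ^ n) x u * 2 ^ l.length ≤ (7 / 8) ^ n * 4 ^ cnt rev v (4 * K) l := by
  classical
  induction n with
  | zero =>
    intro l x h
    rw [pow_zero, Matrix.one_apply]
    by_cases hx : x = u
    · have hl : l = [] := by
        cases h with
        | nil => rfl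
        | cons h1 h2 h3 h4 h5 => exact absurd hx h5
      subst hl
      simp [hx, cnt]
    · rw [if_neg hx, zero_mul]; positivity
  | succ n ih =>
    intro l x h
    by_cases hs : dg p S x = 0
    · have : (PM p rev S ^ (n + 1)) x u = 0 := by
        rw [pow_succ', Matrix.mul_apply]
        refine Finset.sum_eq_zero (fun y _ => ?_)
        unfold PM
        rw [hs, div_zero, zero_mul]
      rw [this, zero_mul]; positivity
    · have hs' : 0 < dg p S x := lt_of_le_of_ne (by unfold dg; positivity) (Ne.symm hs)
      -- one step bound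
      have hstep : ∀ d ∈ S.filter (fun d => p d = x),
          (PM p rev S ^ n) (p (rev d)) u * 2 ^ (l.length + 1) ≤
            (7 / 8) ^ n * 4 ^ cnt rev v (4 * K) (d :: l) := by
        intro d hd
        rw [Finset.mem_filter] at hd
        rcases step h hd.1 hd.2 (hnl d hd.1) with h1 | ⟨l1, l2, rfl, h2, hc⟩
        · have := ih _ _ h1
          simpa using this
        · have h3 := ih _ _ h2
          have h4 := cyc_cnt hK hinv hcyc hc
          have h5 : cnt rev v (4 * K) (d :: l1) + cnt rev v (4 * K) l2 ≤
              cnt rev v (4 * K) (d :: (l1 ++ l2)) := cnt_append rev v (4 * K) (d :: l1) l2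
          have h6 : (2 : ℝ) ^ (l1.length + 1) ≤ 4 ^ cnt rev v (4 * K) (d :: l1) := by
            have : ∀ c : ℕ, (4 : ℝ) ^ c = 2 ^ (2 * c) := by
              intro c; rw [pow_mul]; norm_num
            rw [this]
            exact pow_le_pow_right₀ (by norm_num) (by simpa using h4)
          calc (PM p rev S ^ n) (p (rev d)) u * 2 ^ ((l1 ++ l2).length + 1)
              = ((PM p rev S ^ n) (p (rev d)) u * 2 ^ l2.length) * 2 ^ (l1.length + 1) := by
                rw [List.length_append, mul_assoc, ← pow_add]; congr 2; ring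
            _ ≤ ((7 / 8) ^ n * 4 ^ cnt rev v (4 * K) l2) * 4 ^ cnt rev v (4 * K) (d :: l1) := by
                gcongr
            _ = (7 / 8) ^ n * 4 ^ (cnt rev v (4 * K) (d :: l1) + cnt rev v (4 * K) l2) := by
                rw [pow_add]; ring
            _ ≤ _ := by
                gcongr
                norm_num
      have hsum : dg p S x * ((PM p rev S ^ (n + 1)) x u * 2 ^ (l.length + 1)) ≤
          (7 / 8) ^ n * ∑ d ∈ S.filter (fun d => p d = x), (4 : ℝ) ^ cnt rev v (4 * K) (d :: l) := by
        rw [← mul_assoc, expand, Finset.sum_mul, Finset.mul_sum]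
        exact Finset.sum_le_sum hstep
      have hcount : ∑ d ∈ S.filter (fun d => p d = x), (4 : ℝ) ^ cnt rev v (4 * K) (d :: l) ≤
          (7 / 4) * dg p S x * 4 ^ cnt rev v (4 * K) l := by
        cases l with
        | nil =>
          simp only [cnt, pow_zero, Finset.sum_const, nsmul_eq_mul, mul_one]
          unfold dg at hs' ⊢
          linarith
        | cons f l =>
          have hf : rev f ∈ S := hrev f (h.mem f (by simp))
          have hx : p (rev f) = x := ((h.chain).2.1 f rfl).symm
          have hcl := hclose _ hf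
          rw [hx] at hcl
          have h7 : ∀ d ∈ S.filter (fun d => p d = x), (4 : ℝ) ^ cnt rev v (4 * K) (d :: f :: l) =
              (1 + 3 * (if |v d - v (rev f)| ≤ 4 * K then 1 else 0)) * 4 ^ cnt rev v (4 * K) (f :: l) := by
            intro d _
            rw [cnt]
            by_cases hc : |v d - v (rev f)| ≤ 4 * K
            · simp only [hc, if_true]; rw [pow_add]; norm_num
            · simp only [hc, if_false]; rw [zero_add]; norm_num
          rw [Finset.sum_congr rfl h7, ← Finset.sum_mul]
          gcongr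
          rw [Finset.sum_add_distrib, ← Finset.mul_sum, Finset.sum_boole, Finset.filter_filter]
          simp only [Finset.sum_const, nsmul_eq_mul, mul_one]
          unfold dg
          have : (4 : ℝ) * ((S.filter (fun b => p b = x ∧ |v b - v (rev f)| ≤ 4 * K)).card : ℝ) ≤
              ((S.filter (fun b => p b = x)).card : ℝ) := by exact_mod_cast hcl
          linarith
      have h8 : dg p S x * ((PM p rev S ^ (n + 1)) x u * 2 ^ (l.length + 1)) ≤
          dg p S x * ((7 / 8) ^ n * (7 / 4) * 4 ^ cnt rev v (4 * K) l) := by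
        refine hsum.trans ?_
        calc (7 / 8 : ℝ) ^ n * ∑ d ∈ S.filter (fun d => p d = x), (4 : ℝ) ^ cnt rev v (4 * K) (d :: l)
            ≤ (7 / 8) ^ n * ((7 / 4) * dg p S x * 4 ^ cnt rev v (4 * K) l) := by gcongr
          _ = _ := by ring
      have h9 := le_of_mul_le_mul_left h8 hs'
      have h10 : (PM p rev S ^ (n + 1)) x u * 2 ^ l.length * 2 ≤
          ((7 / 8) ^ (n + 1) * 4 ^ cnt rev v (4 * K) l) * 2 := by
        calc _ = (PM p rev S ^ (n + 1)) x u * 2 ^ (l.length + 1) := by rw [pow_succ 2]; ring
          _ ≤ (7 / 8) ^ n * (7 / 4) * 4 ^ cnt rev v (4 * K) l := h9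
          _ = _ := by rw [pow_succ (7 / 8 : ℝ)]; ring
      linarith

/-- **WC lemma.** -/
theorem wc {p : D → I} {rev : D → D} {v : D → ℝ} {K : ℝ} {S : Finset D} (hK : 0 ≤ K)
    (hinv : ∀ d, rev (rev d) = d) (hrev : ∀ d ∈ S, rev d ∈ S) (hnl : ∀ d ∈ S, p (rev d) ≠ p d)
    (hcyc : ∀ L, Cyc p rev S L → (∀ e, L ≠ [rev e, e]) → isum rev v L ≤ L.length * K)
    (hS : S.Nonempty) :
    ∃ a ∈ S, (S.filter (fun b => p b = p a)).card <
      4 * (S.filter (fun b => p b = p a ∧ |v b - v a| ≤ 4 * K)).card := by
  by_contra hcon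
  push Not at hcon
  have h1 : ∀ n : ℕ, (1 : ℝ) ≤ (Fintype.card I : ℝ) * (7 / 8) ^ (n + n) := by
    intro n
    refine (trace_ge p rev S hrev hinv hS n).trans ?_
    calc ∑ i, (PM p rev S ^ (n + n)) i i ≤ ∑ _i : I, (7 / 8 : ℝ) ^ (n + n) := by
          refine Finset.sum_le_sum (fun i _ => ?_)
          have := ret_bound hK hinv hrev hnl hcyc hcon i (n + n) [] i Pth.nil
          simpa [cnt] using this
      _ = _ := by rw [Finset.sum_const, nsmul_eq_mul, Finset.card_univ]
  have h2 : Filter.Tendsto (fun n : ℕ => (Fintype.card I : ℝ) * (7 / 8) ^ (n + n)) Filter.atTop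
      (nhds ((Fintype.card I : ℝ) * 0)) := by
    refine Filter.Tendsto.const_mul _ ?_
    have : (fun n : ℕ => (7 / 8 : ℝ) ^ (n + n)) = fun n => ((7 / 8 : ℝ) ^ 2) ^ n := by
      funext n; rw [← pow_mul]; congr 1; ring
    rw [this]
    exact tendsto_pow_atTop_nhds_zero_of_lt_one (by norm_num) (by norm_num)
  have h3 := ge_of_tendsto' h2 h1
  linarith

/-- **WC lemma with peeling.** -/
theorem wc_peel {p : D → I} {rev : D → D} {v : D → ℝ} {K : ℝ} (hK : 0 ≤ K)
    (hinv : ∀ d, rev (rev d) = d) (S : Finset D) : ∀ (_ : ∀ d ∈ S, rev d ∈ S)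
    (_ : ∀ d ∈ S, p (rev d) ≠ p d)
    (_ : ∀ L, Cyc p rev S L → (∀ e, L ≠ [rev e, e]) → isum rev v L ≤ L.length * K),
    ∃ G : Finset D, G ⊆ S ∧ S.card ≤ 8 * G.card ∧
      ∀ a ∈ G, ∀ b ∈ G, p a = p b → |v a - v b| ≤ 8 * K := by
  classical
  induction S using Finset.strongInduction with
  | H S ih =>
    intro hrev hnl hcyc
    rcases S.eq_empty_or_nonempty with rfl | hS
    · exact ⟨∅, by simp, by simp, by simp⟩
    obtain ⟨a, haS, ha⟩ := wc hK hinv hrev hnl hcyc hS
    set A := S.filter (fun d => p d = p a) with hA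
    set G0 := S.filter (fun b => p b = p a ∧ |v b - v a| ≤ 4 * K) with hG0
    set S' := S.filter (fun d => p d ≠ p a ∧ p (rev d) ≠ p a) with hS'
    have hsub : S' ⊂ S := by
      refine (Finset.filter_subset _ _).ssubset_of_ne ?_
      intro h
      have : a ∈ S' := by rw [hS', h]; exact haS
      rw [hS', Finset.mem_filter] at this
      exact this.2.1 rfl
    have hrev' : ∀ d ∈ S', rev d ∈ S' := by
      intro d hd
      rw [hS', Finset.mem_filter] at hd ⊢
      exact ⟨hrev d hd.1, hd.2.2, by rw [hinv]; exact hd.2.1⟩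
    have hnl' : ∀ d ∈ S', p (rev d) ≠ p d := fun d hd => hnl d (hsub.1 hd)
    obtain ⟨G1, hG1, hG2, hG3⟩ := ih S' hsub hrev' hnl' (fun L hL hne =>
      hcyc L ⟨fun d hd => hsub.1 (hL.mem d hd), hL.len, hL.chain, hL.nodup, hL.closed⟩ hne)
    have hcard : S.card ≤ 2 * A.card + S'.card := by
      have h1 : S ⊆ (A ∪ A.image rev) ∪ S' := by
        intro d hd
        by_cases h : p d = p a
        · exact Finset.mem_union_left _ (Finset.mem_union_left _ (Finset.mem_filter.2 ⟨hd, h⟩))
        · by_cases h' : p (rev d) = p a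
          · refine Finset.mem_union_left _ (Finset.mem_union_right _ ?_)
            rw [Finset.mem_image]
            exact ⟨rev d, Finset.mem_filter.2 ⟨hrev d hd, h'⟩, hinv d⟩
          · exact Finset.mem_union_right _ (Finset.mem_filter.2 ⟨hd, h, h'⟩)
      have h2 := Finset.card_le_card h1
      have h3 := Finset.card_union_le (A ∪ A.image rev) S'
      have h4 := Finset.card_union_le A (A.image rev)
      have h5 : (A.image rev).card ≤ A.card := Finset.card_image_le
      omega
    have hdisj : Disjoint G0 G1 := by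
      rw [Finset.disjoint_left]
      intro d hd hd1
      have h1 := (Finset.mem_filter.1 hd).2.1
      have h2 := (Finset.mem_filter.1 (hG1 hd1)).2.1
      exact h2 h1
    refine ⟨G0 ∪ G1, ?_, ?_, ?_⟩
    · exact Finset.union_subset (Finset.filter_subset _ _) (hG1.trans (Finset.filter_subset _ _))
    · rw [Finset.card_union_of_disjoint hdisj]
      omega
    · intro x hx y hy hxy
      rcases Finset.mem_union.1 hx with hx | hx <;> rcases Finset.mem_union.1 hy with hy | hy
      · have h1 := (Finset.mem_filter.1 hx).2.2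
        have h2 := (Finset.mem_filter.1 hy).2.2
        rw [abs_le] at h1 h2 ⊢
        constructor <;> linarith [h1.1, h1.2, h2.1, h2.2]
      · have h1 := (Finset.mem_filter.1 hx).2.1
        have h2 := (Finset.mem_filter.1 (hG1 hy)).2.1
        exact absurd (by rw [← hxy, h1]) h2
      · have h1 := (Finset.mem_filter.1 hy).2.1
        have h2 := (Finset.mem_filter.1 (hG1 hx)).2.1
        exact absurd (by rw [hxy, h1]) h2
      · exact hG3 x hx y hy hxy

end

end Pool.Helper86.MS
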